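import Pool.Agent.Results.MP_a964b6_mp.PowerBound

namespace Pool.Agent.Lib.MP_a964b6_mp

/-- The statement with the earlier exponent follows. -/
theorem old_of_new (d : ℕ) (hd : 3 ≤ d) :
    ∃ c : ℝ, 0 < c ∧ c < 1 ∧ ∀ p : ℝ, 0 < p → p ≤ c →
      ∀ (L : ℕ) (x : Fin d → ℤ) (k : Fin d), 1 ≤ p * ((L : ℝ) + 1) ^ d →
        |corr2 (edgeAt L x k) p| ≤
          1 - c * p ^ (1 - ((d : ℝ) - 1) / (d * (d + 1))) / √(Real.log (1 / p)) := by
  obtain ⟨c, c0, c1, h⟩ := Pool.Agent.Results.MP_a964b6_mp.PowerBound.result d hd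
  refine ⟨c, c0, c1, fun p hp hc L x k hL => (h p hp hc L x k hL).trans ?_⟩
  have hD : (3 : ℝ) ≤ d := by exact_mod_cast hd
  have e : ((d : ℝ) - 1) / (d * (d + 1)) ≤ ((d : ℝ) - 2) / (d * (d - 1)) := by
    rw [div_le_div_iff₀ (by positivity) (by nlinarith)]
    nlinarith
  have := Real.rpow_le_rpow_of_exponent_ge hp (by linarith)
    (show 1 - ((d : ℝ) - 2) / (d * (d - 1)) ≤ 1 - ((d : ℝ) - 1) / (d * (d + 1)) by linarith)
  gcongr

end Pool.Agent.Lib.MP_a964b6_mp
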