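import Pool.Agent.Lib.MP_a964b6_mp.PowC

/-! The scale estimate with integer counts on each cut. -/

namespace Pool.Agent.Lib.MP_a964b6_mp

open MeasureTheory ProbabilityTheory Finset

set_option linter.unusedSectionVars false

lemma sqrt_half {K : Type} (T : Finset K) (u : K → ℝ) (h : ∀ i, u i = 0 ∨ u i = 4) :
    √(∑ i ∈ T, u i) ≤ (∑ i ∈ T, u i) / 2 := by
  have h0 (i) : 0 ≤ u i := by rcases h i with h | h <;> simp [h]
  by_cases H : ∀ i ∈ T, u i = 0
  · simp [sum_eq_zero H]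
  · push Not at H
    obtain ⟨i, hi, h1⟩ := H
    have h2 : u i ≤ ∑ i ∈ T, u i := single_le_sum (fun i _ => h0 i) hi
    rw [(h i).resolve_left h1] at h2
    exact Real.sqrt_le_iff.2 ⟨by linarith, by nlinarith⟩

lemma min_pow {X r γ : ℝ} (hX : 0 ≤ X) (hr : 0 < r) (h0 : 0 ≤ γ) (h1 : γ ≤ 1 / 2) :
    X ^ γ * min (√r * √X) X ≤ r ^ γ * X := by
  rcases le_total X r with h | h
  · exact mul_le_mul (Real.rpow_le_rpow hX h h0) (min_le_right _ _)
      (le_min (by positivity) hX) (by positivity)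
  · have x0 : 0 < X := hr.trans_le h
    refine (mul_le_mul_of_nonneg_left (min_le_left _ _) (by positivity)).trans ?_
    have e := Real.rpow_le_rpow hr.le h (show 0 ≤ 1 / 2 - γ by linarith)
    have e1 : √r = r ^ γ * r ^ (1 / 2 - γ) := by
      rw [← Real.rpow_add hr, Real.sqrt_eq_rpow, add_sub_cancel]
    have e2 : √X = X ^ γ * X ^ (1 / 2 - γ) := by
      rw [← Real.rpow_add x0, Real.sqrt_eq_rpow, add_sub_cancel]
    calc _ = r ^ γ * (X ^ γ * r ^ (1 / 2 - γ) * √X) := by rw [e1]; ring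
      _ ≤ r ^ γ * (X ^ γ * X ^ (1 / 2 - γ) * √X) := by gcongr
      _ = _ := by rw [← e2, Real.mul_self_sqrt hX]

variable {d n : ℕ} [NeZero n] [Fact (1 < n)]

lemma scale2 (hd : 3 ≤ d) {r : ℕ} (hr : 1 ≤ r) (hn : 2 * r + 1 ≤ n) {p K φ : ℝ} (hp : 0 < p)
    (hp1 : p < 1) (hK : 1 ≤ K) (hW : p * ((2 * r + 1) ^ d * d) ≤ 1)
    (hφ : ∀ e : Edge d n, 1 - c2 bond e p = φ) :
    (r : ℝ) ≤ 16 * d * 9 ^ d * isoC d * ((r : ℝ) ^ ((d : ℝ) / (d - 1) - 1) *
      ((K * φ + 2 * Real.exp (-K ^ 2 / 2)) / p)) := by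
  have hD : (3 : ℝ) ≤ d := by exact_mod_cast hd
  have hR : (1 : ℝ) ≤ r := by exact_mod_cast hr
  have hI := isoC_pos (d := d) (by omega)
  let ι : (Fin d → Fin (2 * r + 1)) × Fin d ↪ Edge d n := ⟨fun z => (emb n z.1, z.2),
    fun z z' h => Prod.ext (funext fun i => Fin.ext (by
      rw [← val_emb hn, ← val_emb hn z'.1, (Prod.mk.inj h).1])) (Prod.mk.inj h).2⟩
  let W := univ.map ι
  have cW : (W.card : ℝ) = (2 * r + 1) ^ d * d := by simp [W]
  have mW (e : Edge d n) (h : ∀ i, (e.1 i).val ≤ 2 * r) : e ∈ W :=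
    mem_map.2 ⟨(fun i => ⟨_, Nat.lt_succ_of_le (h i)⟩, e.2), mem_univ _,
      Prod.ext (funext fun i => ZMod.natCast_zmod_val _) rfl⟩
  let Q : Fin r → Finset (Fin d → Fin (2 * r + 1)) := fun t => Fintype.piFinset fun _ =>
    Icc ⟨t + 1, by omega⟩ ⟨t + r, by omega⟩
  have mQ (t : Fin r) (a) : emb n a ∈ cube d n (t + 1) (t + r) ↔ a ∈ Q t := by
    simp only [cube, Q, mem_filter, mem_univ, true_and, val_emb hn, Fintype.mem_piFinset, mem_Icc,
      Fin.le_def]
  let I : Finset (Σ _ : Fin r, (Fin d → Fin (2 * r + 1)) × (Fin d → Fin (2 * r + 1))) :=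
    univ.sigma fun t => Q t ×ˢ (Q t)ᶜ
  have cI : (r : ℝ) * (r ^ d * r ^ d) ≤ I.card := by
    have q (t) : (Q t).card = r ^ d := by simp [Q]
    have h : 2 * r ^ d ≤ (2 * r + 1) ^ d := by
      refine le_trans ?_ (Nat.pow_le_pow_left (Nat.le_succ _) d)
      rw [mul_pow]
      exact Nat.mul_le_mul_right _ (Nat.le_self_pow (by omega) 2)
    simp only [I, card_sigma, card_product, card_compl, q, sum_const, card_univ, Fintype.card_fin,
      Fintype.card_fun, smul_eq_mul]
    exact_mod_cast Nat.mul_le_mul_left _ (Nat.mul_le_mul_left _ (by omega))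
  let q : ℝ := (d : ℝ) / (d - 1)
  have q1 : 1 < q := (one_lt_div (by linarith)).2 (by linarith)
  have q2 : q ≤ 3 / 2 := (div_le_iff₀ (by linarith)).2 (by linarith)
  have d0 (i : Edge d n) (s t) : 0 ≤ df bond i s t := by
    rcases good.df_cases i s t with h | h <;> simp [h]
  have X0 (s t) : 0 ≤ ∑ i ∈ W, df bond i s t := sum_nonneg fun i _ => d0 i s t
  let g : (Fin d → Fin (2 * r + 1)) × (Fin d → Fin (2 * r + 1)) → (Vtx d n → ℤˣ) → ℝ :=
    fun z s => ((s (emb n z.1) : ℤ) : ℝ) * ((s (emb n z.2) : ℤ) : ℝ)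
  have gc (z s) : g z s = 1 ∨ g z s = -1 := by
    rcases unit_cases (s (emb n z.1)) with h | h <;>
      rcases unit_cases (s (emb n z.2)) with h' | h' <;> simp [g, h, h']
  have g0 (z s s') : 0 ≤ 1 - g z s * g z s' := by
    rcases gc z s with h | h <;> rcases gc z s' with h' | h' <;> simp [h, h']
  have sep (t s s') : ∑ z ∈ Q t ×ˢ (Q t)ᶜ, (1 - g z s * g z s') ≤
      4 * (2 * r + 1) ^ d * (isoC d * (∑ i ∈ W, df bond i s s') ^ q) := by
    have := sep_le (d := d) (m := 2 * r + 1) (by omega) (by omega)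
      (χ := fun a => ((s (emb n a) : ℤ) : ℝ) * ((s' (emb n a) : ℤ) : ℝ))
      (F := fun a => ∑ k, df bond (emb n a, k) s s') (fun a => by
        rcases unit_cases (s (emb n a)) with h | h <;>
          rcases unit_cases (s' (emb n a)) with h' | h' <;> simp [h, h'])
      (fun a => sum_nonneg fun k _ => d0 _ _ _) fun a k hk h => by
        refine le_trans ?_ (single_le_sum (f := fun k => df bond (emb n a, k) s s')
          (fun k _ => d0 _ _ _) (mem_univ k))
        have e : emb n (Function.update a k ⟨a k + 1, hk⟩) = emb n a + Pi.single k 1 := by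
          funext i
          by_cases hi : i = k
          · subst hi; simp [emb]
          · simp [emb, hi]
        simp only [e, df, bond] at h ⊢
        revert h
        rcases unit_cases (s (emb n a)) with h1 | h1 <;>
          rcases unit_cases (s' (emb n a)) with h2 | h2 <;>
          rcases unit_cases (s (emb n a + Pi.single k 1)) with h3 | h3 <;>
          rcases unit_cases (s' (emb n a + Pi.single k 1)) with h4 | h4 <;>
          norm_num [h1, h2, h3, h4]
    rw [sum_map, Fintype.sum_prod_type]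
    push_cast at this
    refine (sum_le_sum_of_subset_of_nonneg (subset_univ _) fun z _ _ => g0 z s s').trans
      (le_of_eq_of_le ?_ this)
    rw [Fintype.sum_prod_type]
    exact sum_congr rfl fun u _ => sum_congr rfl fun v _ => by simp only [g]; ring
  have cuts (s s') : ∑ t : Fin r, √(∑ i ∈ cut (cube d n (t + 1) (t + r)),
      (bond s i - bond s' i) ^ 2) ≤ 4 * min (√r * √(∑ i ∈ W, df bond i s s'))
        (∑ i ∈ W, df bond i s s') := by
    have h1 (t : Fin r) : ∑ i ∈ cut (cube d n (t + 1) (t + r)), (bond s i - bond s' i) ^ 2 ≤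
        ∑ i ∈ W, ((if (i.1 i.2).val = t + 0 then 4 * df bond i s s' else 0) +
          if (i.1 i.2).val = t + r then 4 * df bond i s s' else 0) := by
      have c (i) (hi : i ∈ cut (cube d n (t + 1) (t + r))) := mem_cut_cube (by omega) hi
      refine (sum_le_sum fun i hi => ?_).trans (sum_le_sum_of_subset_of_nonneg
        (fun i hi => mW i fun j => ((c i hi).1 j).trans (by omega)) fun i _ _ => by
          have := d0 i s s'
          split_ifs <;> linarith)
      have e : (bond s i - bond s' i) ^ 2 = 4 * df bond i s s' := by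
        rcases good.pm s i with h | h <;> rcases good.pm s' i with h' | h' <;>
          norm_num [df, h, h']
      have := d0 i s s'
      have := (c i hi).2
      rw [e]
      split_ifs <;> first | linarith | omega
    have h2 := sum_le_sum fun t (_ : t ∈ univ) => h1 t
    rw [sum_comm] at h2
    have h3 := h2.trans (sum_le_sum (g := fun i => 8 * df bond i s s') fun i _ => by
      have h := mul_nonneg (show (0 : ℝ) ≤ 4 by norm_num) (d0 i s s')
      rw [sum_add_distrib]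
      linarith [sum_ite_le (r := r) (i.1 i.2).val 0 h, sum_ite_le (r := r) (i.1 i.2).val r h])
    rw [← mul_sum] at h3
    rw [mul_min_of_nonneg _ _ (by norm_num : (0 : ℝ) ≤ 4)]
    refine le_min ?_ ((sum_le_sum fun t _ => sqrt_half _ _ fun i => ?_).trans ?_)
    · refine le_trans (Real.le_sqrt_of_sq_le (sq_sum_le_card_mul_sum_sq.trans ?_) :
        _ ≤ √(4 ^ 2 * r * ∑ i ∈ W, df bond i s s')) (le_of_eq ?_)
      · rw [sum_congr rfl fun t _ => Real.sq_sqrt (sum_nonneg fun i _ => sq_nonneg _), card_univ,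
          Fintype.card_fin]
        nlinarith [X0 s s']
      · rw [Real.sqrt_mul (by positivity), Real.sqrt_mul (by positivity),
          Real.sqrt_sq (by norm_num), mul_assoc]
    · rcases good.pm s i with h | h <;> rcases good.pm s' i with h' | h' <;> norm_num [h, h']
    · rw [← sum_div]
      linarith
  have pw (s s') : (∑ i ∈ W, df bond i s s') ^ q =
      (∑ i ∈ W, df bond i s s') * (∑ i ∈ W, df bond i s s') ^ (q - 1) := by
    rw [← Real.rpow_one_add' (X0 s s') (by linarith), add_sub_cancel]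
  have M := good.main I (fun t => g t.2) (fun t => cut (cube d n (t.1 + 1) (t.1 + r)))
    (fun t s => by rcases gc t.2 s with h | h <;> simp [h])
    (fun t => Function.Involutive.toPerm
      (fun σ x => if x ∈ cube d n (t.1 + 1) (t.1 + r) then -σ x else σ x)
      fun σ => by funext x; by_cases h : x ∈ cube d n (t.1 + 1) (t.1 + r) <;> simp [h])
    (fun t σ i => by
      by_cases h1 : i.1 ∈ cube d n (t.1 + 1) (t.1 + r) <;>
        by_cases h2 : i.1 + Pi.single i.2 1 ∈ cube d n (t.1 + 1) (t.1 + r) <;>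
        simp [bond, cut, h1, h2])
    (fun t ht σ => by
      obtain ⟨h1, h2⟩ := mem_product.1 (mem_sigma.1 ht).2
      simp [g, mQ, h1, mem_compl.1 h2]) W
    (A := r * (4 * (2 * r + 1) ^ d * (isoC d * W.card ^ (q - 1))))
    (B := 0) (C := 16 * (2 * r + 1) ^ d * isoC d * (r : ℝ) ^ (q - 1)) (by positivity)
    le_rfl (by positivity) hK hp hp1 (cW ▸ hW) hφ
    (fun s s' => by
      have h : (∑ i ∈ W, df bond i s s') ^ (q - 1) ≤ W.card ^ (q - 1) :=
        Real.rpow_le_rpow (X0 s s') ((sum_le_card_nsmul _ _ 1 fun i _ => by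
          rcases good.df_cases i s s' with h | h <;> simp [h]).trans_eq (by simp)) (by linarith)
      rw [sum_sigma]
      refine (sum_le_sum fun t _ => sep t s s').trans ?_
      rw [sum_const, card_univ, Fintype.card_fin, nsmul_eq_mul, pw]
      have := X0 s s'
      calc _ ≤ r * (4 * (2 * r + 1) ^ d * (isoC d * ((∑ i ∈ W, df bond i s s') *
            W.card ^ (q - 1)))) := by gcongr
        _ = _ := by ring)
    (fun s s' => by
      have e (z) : |g z s - g z s'| = 1 - g z s * g z s' := by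
        rcases gc z s with h | h <;> rcases gc z s' with h' | h' <;> norm_num [h, h']
      have x0 := X0 s s'
      rw [sum_sigma]
      simp only [e, ← sum_mul]
      refine (sum_le_sum fun t _ => mul_le_mul_of_nonneg_right (sep t s s')
        (Real.sqrt_nonneg _)).trans ?_
      rw [← mul_sum]
      refine (mul_le_mul_of_nonneg_left (cuts s s') (by positivity)).trans ?_
      have y := min_pow x0 (show (0 : ℝ) < r by linarith) (γ := q - 1) (by linarith) (by linarith)
      rw [pw]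
      generalize ∑ i ∈ W, df bond i s s' = X at *
      calc _ = 16 * (2 * r + 1) ^ d * isoC d * X * (X ^ (q - 1) * min (√r * √X) X) := by ring
        _ ≤ 16 * (2 * r + 1) ^ d * isoC d * X * ((r : ℝ) ^ (q - 1) * X) := by gcongr
        _ = _ := by ring)
  have h3 : (2 * (r : ℝ) + 1) ^ d * (2 * r + 1) ^ d ≤ 9 ^ d * (r ^ d * r ^ d) := by
    rw [← mul_pow, ← mul_pow, ← mul_pow]
    exact pow_le_pow_left₀ (by positivity) (by nlinarith) d
  have h4 : 0 ≤ φ := hφ (0, ⟨0, by omega⟩) ▸ sub_nonneg.2 (c2_le_one _ hp hp1)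
  refine le_of_mul_le_mul_left ?_ (show 0 < (r : ℝ) ^ d * r ^ d by positivity)
  rw [cW] at M
  generalize hT : (K * φ + 2 * Real.exp (-K ^ 2 / 2)) / p = T at *
  have T0 : 0 ≤ T := by rw [← hT]; positivity
  calc _ = (r : ℝ) * (r ^ d * r ^ d) := by ring
    _ ≤ _ := cI.trans M
    _ = (2 * r + 1) ^ d * (2 * r + 1) ^ d * (16 * d * isoC d * ((r : ℝ) ^ (q - 1) * T)) := by ring
    _ ≤ 9 ^ d * (r ^ d * r ^ d) * (16 * d * isoC d * ((r : ℝ) ^ (q - 1) * T)) := by gcongr
    _ = _ := by ring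

theorem power_gain2 (d : ℕ) (hd : 3 ≤ d) : ∃ c : ℝ, 0 < c ∧ c ≤ 1 / 2 ∧ ∀ p : ℝ, 0 < p → p ≤ c →
    ∀ (n l : ℕ) [NeZero n] [Fact (1 < n)], l ≤ n → 1 ≤ p * (l : ℝ) ^ d → ∀ e : Edge d n,
      c2 bond e p ≤ 1 - c * p ^ (1 - (d - 2) / (d * (d - 1)) : ℝ) / √(Real.log (1 / p)) := by
  have hD : (3 : ℝ) ≤ d := by exact_mod_cast hd
  have D0 : (0 : ℝ) < d := by linarith
  have D1 : (0 : ℝ) < d - 1 := by linarith
  have hI := isoC_pos (d := d) (by omega)
  obtain ⟨C, hC, C0⟩ : ∃ C : ℝ, C = 16 * d * 9 ^ d * isoC d ∧ 0 < C := ⟨_, rfl, by positivity⟩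
  have D2 : (0 : ℝ) < d - 2 := by linarith
  obtain ⟨b, hb⟩ : ∃ b : ℝ, b = (d - 2) / (d - 1) := ⟨_, rfl⟩
  have b0 : 0 < b := by rw [hb]; positivity
  obtain ⟨a, ha, a0⟩ : ∃ a : ℝ, a = C⁻¹ ∧ 0 < a := ⟨_, rfl, by positivity⟩
  refine ⟨min (min (1 / 2) (a / 4)) (min (d * 6 ^ d)⁻¹ (a / 4 * ((4 : ℝ)⁻¹ ^ b * (d : ℝ)⁻¹ ^ (b / d)))),
    by positivity, (min_le_left _ _).trans (min_le_left _ _), fun p hp hc n l _ _ hl hn e => ?_⟩
  have c4 : min (min (1 / 2) (a / 4)) (min (d * 6 ^ d)⁻¹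
      (a / 4 * ((4 : ℝ)⁻¹ ^ b * (d : ℝ)⁻¹ ^ (b / d)))) ≤ _ :=
    (min_le_right _ _).trans (min_le_right _ _)
  simp only [le_min_iff] at hc
  obtain ⟨⟨p1, p2⟩, p3, -⟩ := hc
  have hp1 : p < 1 := by linarith
  obtain ⟨ρ, hρ, ρ0⟩ : ∃ ρ : ℝ, ρ = (d * p)⁻¹ ^ (d : ℝ)⁻¹ ∧ 0 < ρ := ⟨_, rfl, by positivity⟩
  have ρd : ρ ^ d = (d * p)⁻¹ := by rw [hρ, Real.rpow_inv_natCast_pow (by positivity) (by omega)]
  have ρ6 : 6 ≤ ρ := by
    refine le_of_pow_le_pow_left₀ (n := d) (by omega) ρ0.le ?_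
    rw [ρd, le_inv_comm₀ (by positivity) (by positivity)]
    rw [mul_inv, ← div_eq_inv_mul, le_div_iff₀ D0] at p3
    linarith
  have r1 : (⌊(ρ - 1) / 2⌋₊ : ℝ) ≤ (ρ - 1) / 2 := Nat.floor_le (by linarith)
  have r2 := Nat.lt_floor_add_one ((ρ - 1) / 2)
  generalize ⌊(ρ - 1) / 2⌋₊ = r at r1 r2
  have hR : (1 : ℝ) ≤ r := by linarith
  have w1 : (2 * (r : ℝ) + 1) ^ d ≤ (d * p)⁻¹ :=
    ρd ▸ pow_le_pow_left₀ (by positivity) (by linarith) d
  have w2 : p * ((2 * r + 1) ^ d * d) ≤ 1 := by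
    rw [inv_eq_one_div, le_div_iff₀ (by positivity)] at w1
    linarith
  have w3 : 2 * r + 1 ≤ n := by
    refine le_trans ?_ hl
    have h : (2 * (r : ℝ) + 1) ^ d ≤ l ^ d := by
      refine le_of_mul_le_mul_left (le_trans ?_ (w2.trans hn)) hp
      exact mul_le_mul_of_nonneg_left (le_mul_of_one_le_right (by positivity) (by linarith)) hp.le
    exact_mod_cast le_of_pow_le_pow_left₀ (by omega) (Nat.cast_nonneg _) h
  have l1 : 1 / 4 ≤ Real.log (1 / p) := by
    have := Real.log_le_log (by norm_num) (show 2 ≤ 1 / p by rw [le_div_iff₀ hp]; linarith)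
    linarith [Real.log_two_gt_d9]
  have s1 : 1 / 2 ≤ √(Real.log (1 / p)) := Real.le_sqrt_of_sq_le (by linarith)
  have e1 : Real.exp (-(2 * √(Real.log (1 / p))) ^ 2 / 2) = p ^ 2 := by
    rw [mul_pow, Real.sq_sqrt (by linarith), one_div, Real.log_inv, ← Real.exp_log (pow_pos hp 2),
      Real.log_pow]
    congr 1
    push_cast
    ring
  have M := scale2 hd (by exact_mod_cast hR) w3 hp hp1 (K := 2 * √(Real.log (1 / p)))
    (by linarith) w2 (fun e' => congrArg (1 - ·) (c2_eq hp hp1 e' e))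
  rw [← hC, e1] at M
  have y3 : a * (r : ℝ) ^ b ≤ (2 * √(Real.log (1 / p)) * (1 - c2 bond e p) + 2 * p ^ 2) / p := by
    have y1 : (r : ℝ) = r ^ ((d : ℝ) / (d - 1) - 1) * r ^ b := by
      rw [← Real.rpow_add (by linarith), hb, show (d : ℝ) / (d - 1) - 1 + (d - 2) / (d - 1) = 1 by
        field_simp; ring, Real.rpow_one]
    have y2 : 0 < (r : ℝ) ^ ((d : ℝ) / (d - 1) - 1) := by positivity
    rw [ha, inv_mul_le_iff₀ C0]
    refine le_of_mul_le_mul_left ?_ y2
    rw [← y1, mul_left_comm]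
    exact M
  have y5 : 1 ≤ (r : ℝ) ^ b := Real.one_le_rpow hR b0.le
  have y6 : (4 : ℝ)⁻¹ ^ b * (d : ℝ)⁻¹ ^ (b / d) * p⁻¹ ^ (b / d) ≤ (r : ℝ) ^ b := by
    rw [mul_assoc, ← Real.mul_rpow (by positivity) (by positivity), ← mul_inv, div_eq_inv_mul,
      Real.rpow_mul (by positivity), ← hρ, ← Real.mul_rpow (by positivity) ρ0.le]
    exact Real.rpow_le_rpow (by positivity) (by linarith) b0.le
  have y7 : p ^ (1 - (d - 2) / (d * (d - 1)) : ℝ) = p * p⁻¹ ^ (b / d) := by
    rw [Real.inv_rpow hp.le, ← Real.rpow_neg hp.le, ← Real.rpow_one_add' hp.le, hb]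
    · congr 1
      field_simp
      ring
    · rw [hb, div_div, ← sub_eq_add_neg, sub_ne_zero]
      exact ((div_lt_one (by positivity)).2 (by nlinarith)).ne'
  rw [le_sub_comm, div_le_iff₀ (by linarith), y7]
  rw [le_div_iff₀ hp] at y3
  have y8 := mul_le_mul_of_nonneg_right c4 (show 0 ≤ p * p⁻¹ ^ (b / d) by positivity)
  have y9 := mul_le_mul_of_nonneg_left y6 (show 0 ≤ a / 4 * p by positivity)
  have y10 := mul_le_mul_of_nonneg_left y5 (show 0 ≤ a / 4 * p by positivity)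
  nlinarith [mul_le_mul_of_nonneg_left p2 hp.le]

end Pool.Agent.Lib.MP_a964b6_mp
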